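import Mathlib

set_option autoImplicit false

open Filter Topology

namespace Pool.Agent.Results.MP_69a59d_an.ParanormalBounded

/-- an everywhere defined linear map is paranormal if `‖T x‖² ≤ ‖T² x‖ ‖x‖` for all `x` -/
def IsParanormal {H : Type*} [NormedAddCommGroup H] [InnerProductSpace ℂ H] (T : H →ₗ[ℂ] H) :
    Prop :=
  ∀ x : H, ‖T x‖ ^ 2 ≤ ‖T (T x)‖ * ‖x‖

/-- Every everywhere defined paranormal linear map on a complex Hilbert space is bounded. -/
theorem result {H : Type*} [NormedAddCommGroup H] [InnerProductSpace ℂ H] [CompleteSpace H]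
    (T : H →ₗ[ℂ] H) (hT : IsParanormal T) : ∃ C : ℝ, ∀ x : H, ‖T x‖ ≤ C * ‖x‖ := by
  -- the closed subspace `Z` of limits of `T² u` along `u → 0`, `T u → 0`
  let Z0 : Submodule ℂ H :=
    { carrier := {z | ∀ ε > 0, ∃ u, ‖u‖ < ε ∧ ‖T u‖ < ε ∧ ‖T (T u) - z‖ < ε}
      zero_mem' := fun ε hε => ⟨0, by simpa using hε, by simpa using hε, by simpa using hε⟩
      add_mem' := by
        intro a b ha hb ε hε
        obtain ⟨u, hu1, hu2, hu3⟩ := ha (ε / 2) (by positivity)
        obtain ⟨v, hv1, hv2, hv3⟩ := hb (ε / 2) (by positivity)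
        refine ⟨u + v, ?_, ?_, ?_⟩
        · calc _ ≤ ‖u‖ + ‖v‖ := norm_add_le _ _
            _ < ε := by linarith
        · rw [map_add]
          calc _ ≤ ‖T u‖ + ‖T v‖ := norm_add_le _ _
            _ < ε := by linarith
        · rw [map_add, map_add, show T (T u) + T (T v) - (a + b) =
            (T (T u) - a) + (T (T v) - b) by abel]
          calc _ ≤ ‖T (T u) - a‖ + ‖T (T v) - b‖ := norm_add_le _ _
            _ < ε := by linarith
      smul_mem' := by
        intro c a ha ε hε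
        obtain ⟨u, hu1, hu2, hu3⟩ := ha (ε / (‖c‖ + 1)) (by positivity)
        have hc : ∀ t : ℝ, 0 ≤ t → t < ε / (‖c‖ + 1) → ‖c‖ * t < ε := by
          intro t ht0 ht
          rw [lt_div_iff₀ (by positivity)] at ht
          nlinarith [norm_nonneg c]
        refine ⟨c • u, ?_, ?_, ?_⟩
        · rw [norm_smul]; exact hc _ (norm_nonneg _) hu1
        · rw [map_smul, norm_smul]; exact hc _ (norm_nonneg _) hu2
        · rw [map_smul, map_smul, ← smul_sub, norm_smul]; exact hc _ (norm_nonneg _) hu3 }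
  let Z : Submodule ℂ H := Z0.topologicalClosure
  have hZ0 : ∀ z, z ∈ Z0 ↔ ∀ ε > 0, ∃ u, ‖u‖ < ε ∧ ‖T u‖ < ε ∧ ‖T (T u) - z‖ < ε :=
    fun z => Iff.rfl
  have hZcl : IsClosed (Z : Set H) := Z0.isClosed_topologicalClosure
  have : CompleteSpace Z := hZcl.completeSpace_coe
  have hZ : ∀ z ∈ Z, ∀ ε > 0, ∃ u, ‖u‖ < ε ∧ ‖T u‖ < ε ∧ ‖T (T u) - z‖ < ε := by
    intro z hz ε hε
    have hz' : z ∈ closure (Z0 : Set H) := hz
    rw [Metric.mem_closure_iff] at hz'
    obtain ⟨b, hb, hzb⟩ := hz' (ε / 2) (by positivity)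
    obtain ⟨u, hu1, hu2, hu3⟩ := (hZ0 b).1 hb (ε / 2) (by positivity)
    refine ⟨u, by linarith, by linarith, ?_⟩
    rw [dist_eq_norm, norm_sub_rev] at hzb
    calc _ = ‖(T (T u) - b) + (b - z)‖ := by congr 1; abel
      _ ≤ ‖T (T u) - b‖ + ‖b - z‖ := norm_add_le _ _
      _ < ε := by linarith
  -- the projection onto the orthogonal complement
  let Q : H →L[ℂ] H := ContinuousLinearMap.id ℂ H - Z.starProjection
  have hQ : ∀ x, x - Q x ∈ Z := by
    intro x
    have : x - Q x = Z.starProjection x := by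
      show x - (x - Z.starProjection x) = _
      abel
    rw [this]
    exact Submodule.starProjection_apply_mem Z x
  have hQ' : ∀ x, Q x ∈ Zᗮ := fun x => Submodule.sub_starProjection_mem_orthogonal x
  -- the key point
  have key : ∀ (v : ℕ → H) (w1 w2 : H), Tendsto v atTop (𝓝 0) →
      Tendsto (fun n => T (v n)) atTop (𝓝 w1) →
      Tendsto (fun n => Q (T (T (v n)))) atTop (𝓝 w2) → w1 = 0 ∧ w2 = 0 := by
    intro v w1 w2 hv hv1 hv2
    have hex : ∀ n : ℕ, ∃ u, ‖u‖ < 1 / ((n : ℝ) + 1) ∧ ‖T u‖ < 1 / ((n : ℝ) + 1) ∧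
        ‖T (T u) - (-(T (T (v n)) - Q (T (T (v n)))))‖ < 1 / ((n : ℝ) + 1) := fun n =>
      hZ _ (Z.neg_mem (hQ _)) _ (by positivity)
    choose u hu1 hu2 hu3 using hex
    have h0 := tendsto_one_div_add_atTop_nhds_zero_nat (𝕜 := ℝ)
    have hu : Tendsto u atTop (𝓝 0) :=
      squeeze_zero_norm (fun n => (hu1 n).le) h0
    have hTu : Tendsto (fun n => T (u n)) atTop (𝓝 0) :=
      squeeze_zero_norm (fun n => (hu2 n).le) h0
    have hTTu : Tendsto (fun n => T (T (u n)) - (-(T (T (v n)) - Q (T (T (v n)))))) atTop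
        (𝓝 0) := squeeze_zero_norm (fun n => (hu3 n).le) h0
    have hs : Tendsto (fun n => v n + u n) atTop (𝓝 0) := by simpa using hv.add hu
    have hs1 : Tendsto (fun n => T (v n + u n)) atTop (𝓝 w1) := by
      have := hv1.add hTu
      rw [add_zero] at this
      exact this.congr fun n => (map_add T _ _).symm
    have hs2 : Tendsto (fun n => T (T (v n + u n))) atTop (𝓝 w2) := by
      have := hv2.add hTTu
      rw [add_zero] at this
      refine this.congr fun n => ?_
      rw [map_add, map_add]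
      abel
    have hw1 : ‖w1‖ ^ 2 ≤ ‖w2‖ * ‖(0 : H)‖ :=
      le_of_tendsto_of_tendsto' (hs1.norm.pow 2) (hs2.norm.mul hs.norm) fun n => hT _
    have hw1' : w1 = 0 := by
      rw [norm_zero, mul_zero] at hw1
      have : ‖w1‖ = 0 := by nlinarith [norm_nonneg w1, sq_nonneg ‖w1‖]
      exact norm_eq_zero.1 this
    refine ⟨hw1', ?_⟩
    have hw2Z : w2 ∈ Z := by
      refine Z0.le_topologicalClosure ((hZ0 w2).2 fun ε hε => ?_)
      rw [hw1'] at hs1
      have e1 := (tendsto_zero_iff_norm_tendsto_zero.1 hs).eventually (gt_mem_nhds hε)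
      have e2 := (tendsto_zero_iff_norm_tendsto_zero.1 hs1).eventually (gt_mem_nhds hε)
      have e3 := (tendsto_iff_norm_sub_tendsto_zero.1 hs2).eventually (gt_mem_nhds hε)
      obtain ⟨n, h1, h2, h3⟩ := (e1.and (e2.and e3)).exists
      exact ⟨v n + u n, h1, h2, h3⟩
    have hw2O : w2 ∈ Zᗮ :=
      (Submodule.isClosed_orthogonal Z).mem_of_tendsto hv2 (Eventually.of_forall fun n => hQ' _)
    have := Submodule.inner_right_of_mem_orthogonal hw2Z hw2O
    exact inner_self_eq_zero.1 this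
  let g : H →ₗ[ℂ] H × H := T.prod (Q.toLinearMap ∘ₗ T ∘ₗ T)
  have hg : ∀ x, g x = (T x, Q (T (T x))) := fun x => rfl
  have hcont : Continuous g := by
    refine g.continuous_of_seq_closed_graph ?_
    intro u x y hu hgu
    have hv : Tendsto (fun n => u n - x) atTop (𝓝 0) := by
      simpa using hu.sub_const x
    have hgv : Tendsto (fun n => g (u n - x)) atTop (𝓝 (y - g x)) := by
      refine (hgu.sub_const (g x)).congr fun n => ?_
      simp only [Function.comp_apply, map_sub]
    have h1 : Tendsto (fun n => T (u n - x)) atTop (𝓝 (y - g x).1) :=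
      (continuous_fst.tendsto _).comp hgv
    have h2 : Tendsto (fun n => Q (T (T (u n - x)))) atTop (𝓝 (y - g x).2) :=
      (continuous_snd.tendsto _).comp hgv
    obtain ⟨k1, k2⟩ := key _ _ _ hv h1 h2
    exact sub_eq_zero.1 (Prod.ext k1 k2)
  have hTc : Continuous T := continuous_fst.comp hcont
  let T' : H →L[ℂ] H := ⟨T, hTc⟩
  exact ⟨‖T'‖, fun x => T'.le_opNorm x⟩

end Pool.Agent.Results.MP_69a59d_an.ParanormalBounded
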